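import Pool.Agent.Lib_helper25.OX.U2
import Pool.Agent.Lib_helper51.OK5.Base

/-!
# Five colours, residue 3: proper subsets of residue 4 have `Y` at least `8`
-/

set_option autoImplicit false
set_option linter.unusedSectionVars false
set_option linter.unusedVariables false

open scoped Classical
open Finset
open Pool.Agent.O2 (PC Cb CrOn pr ms dg nd addE)
open Pool.Agent.O3 (con hit Clq Non)
open Pool.Agent.OW
open Pool.Agent.OW.S5
open Pool.Agent.OK5 (b5)

namespace Pool.Agent.OX25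

variable {V : Type}

theorem pr_even (G : SimpleGraph V) (X : Finset V) : (2 : ℤ) ∣ (pr G X X : ℤ) := by
  have h1 := Pool.Agent.O2.pr_add_ms G X
  have h2 := Pool.Agent.O3.two_eb G X
  rcases Nat.even_or_odd (pr G X X) with ⟨t, ht⟩ | ⟨t, ht⟩
  · exact ⟨t, by rw [ht]; push_cast; ring⟩
  · exfalso
    have h3 : (X.card * X.card) % 2 = X.card % 2 := by
      rcases Nat.mod_two_eq_zero_or_one X.card with h | h <;> simp [Nat.mul_mod, h]
    omega

theorem b5_even (m : ℕ) : (2 : ℤ) ∣ b5 m := by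
  unfold b5
  split_ifs <;> omega

theorem Yy_even (G : SimpleGraph V) (X : Finset V) : (2 : ℤ) ∣ Yy G 5 b5 X := by
  unfold Yy df
  have h1 := pr_even G X
  have h2 := b5_even (X.card - 1)
  push_cast
  omega

/-- a step with a good colouring -/
theorem good_step {K : ℕ} {β : ℕ → ℤ} {G : SimpleGraph V} {S R : Finset V} (hK : 2 ≤ K)
    (hS : CrOn G S K) (hI : IH K β S.card) (hA : AE G S K 1) (hR : R ⊆ S) (hne : R ≠ S)
    (hc : K + 1 ≤ R.card) : ∃ (ψ : V → Fin K) (A : Finset V) (Z : Finset (Fin K)),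
      Step G S R ψ A Z ∧
      Yy G K β R = Yy G K β (R ∪ A) - Yy (con G R ψ) K β (A.disjSum Z) +
        cst K β Z.card (R.card - 1) A.card + 2 * gain G R ψ A Z ∧
      Yy (con G R ψ) K β (A.disjSum Z) ≤ 0 ∧ 0 ≤ gain G R ψ A Z ∧
      (R ∪ A = S → Z.card = 1 → 1 ≤ gain G R ψ A Z) := by
  obtain ⟨ψ, hg⟩ := gd_exists (i := 1) hS hA (by omega) hR hne (by omega)
  obtain ⟨A, Z, hstp⟩ := step_exists (by omega) hS hR (card_pos.1 (by omega)) hg.1
  have hYe := hstp.Y_eq β (card_pos.1 (by omega))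
  have hQ : Yy (con G R ψ) K β (A.disjSum Z) ≤ 0 := by
    have := hI _ _ _ hstp.cr (hstp.Q_lt hc)
    unfold Yy
    linarith
  refine ⟨ψ, A, Z, hstp, by linarith, hQ, hstp.gain_nonneg, ?_⟩
  intro hU hs
  obtain ⟨c, hc'⟩ := card_eq_one.1 hs
  have hAS : A = S \ R := by
    apply Subset.antisymm hstp.hA
    intro v hv
    obtain ⟨h3, h4⟩ := mem_sdiff.1 hv
    rw [← hU] at h3
    rcases mem_union.1 h3 with h5 | h5
    · exact absurd h5 h4
    · exact h5
  have h3 := gain_one G R A ψ c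
  have h4 := hg.2 c
  rw [← hAS] at h4
  have h5 : ((1 : ℕ) : ℤ) ≤ pr G (R.filter fun r => ψ r ≠ c) A := by exact_mod_cast h4
  rw [hc']
  push_cast at h5
  linarith

/-! ### Numbers -/

theorem n4_up (m a s : ℕ) (hm : m % 5 = 4) (h1 : 1 ≤ s) (h2 : s ≤ 5) (ha : 1 ≤ a) :
    2 ≤ cst 5 b5 s m a ∧ ((m + a) % 5 = 0 → 4 ≤ cst 5 b5 s m a) := by
  unfold cst b5
  interval_cases s <;> push_cast <;> split_ifs <;> omega

theorem n4_last (m a s : ℕ) (hm : m % 5 = 4) (h1 : 1 ≤ s) (h2 : s ≤ 5) (ha : 1 ≤ a)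
    (hma : (m + a) % 5 = 3) : 4 ≤ cst 5 b5 s m a ∧ (s ≠ 1 → s ≠ 2 → 6 ≤ cst 5 b5 s m a) ∧
      (s = 2 → (a + 2 - 1) % 5 = 0) := by
  unfold cst b5
  interval_cases s <;> push_cast <;> split_ifs <;> omega

theorem n0_up (m a s : ℕ) (hm : m % 5 = 0) (h1 : 1 ≤ s) (h2 : s ≤ 5) (ha : 1 ≤ a) :
    2 ≤ cst 5 b5 s m a := by
  unfold cst b5
  interval_cases s <;> push_cast <;> split_ifs <;> omega

theorem n0_last (m a s : ℕ) (hm : m % 5 = 0) (h1 : 1 ≤ s) (h2 : s ≤ 5) (ha : 1 ≤ a)
    (hma : (m + a) % 5 = 3) : 2 ≤ cst 5 b5 s m a ∧ (s ≠ 1 → s ≠ 3 → 4 ≤ cst 5 b5 s m a) ∧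
      (s = 3 → (a + 3 - 1) % 5 = 0) := by
  unfold cst b5
  interval_cases s <;> push_cast <;> split_ifs <;> omega

/-! ### Four vertices with three colours each -/

theorem clique_lists {M : Finset V} {L : V → Finset (Fin 5)} (hM : M.card = 4)
    (hL : ∀ m ∈ M, 3 ≤ (L m).card)
    (hno : ¬ ∃ g : V → Fin 5, (∀ m ∈ M, g m ∈ L m) ∧ ∀ m ∈ M, ∀ m' ∈ M, g m = g m' → m = m') :
    ∀ m ∈ M, ∀ m' ∈ M, L m = L m' := by
  by_cases hall : ∀ s : Finset {p // p ∈ M}, s.card ≤ (s.biUnion fun p => L p.1).card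
  · exfalso
    apply hno
    obtain ⟨g, hg, hgm⟩ := (Finset.all_card_le_biUnion_card_iff_exists_injective _).1 hall
    refine ⟨fun p => if hp : p ∈ M then g ⟨p, hp⟩ else 0, ?_, ?_⟩
    · intro p hp
      simp only [hp, dif_pos]
      exact hgm ⟨p, hp⟩
    · intro p hp p' hp' he
      simp only [hp, hp', dif_pos] at he
      have := hg he
      simpa using this
  · push Not at hall
    obtain ⟨s, hs⟩ := hall
    have hs4 : s.card ≤ 4 := by
      have := Finset.card_le_univ s
      simpa [hM] using this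
    have hsne : s.Nonempty := card_pos.1 (by omega)
    obtain ⟨p, hp⟩ := hsne
    have hsub : ∀ q ∈ s, L q.1 ⊆ s.biUnion fun p => L p.1 := fun q hq c hc =>
      mem_biUnion.2 ⟨q, hq, hc⟩
    have h1 := (hL p.1 p.2).trans (card_le_card (hsub p hp))
    have hsu : s = univ := by
      apply Finset.eq_univ_of_card
      have : Fintype.card {p // p ∈ M} = M.card := by simp
      omega
    have h2 : ∀ m ∈ M, L m = s.biUnion fun p => L p.1 := by
      intro m hm
      apply eq_of_subset_of_card_le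
      · exact hsub ⟨m, hm⟩ (by rw [hsu]; exact mem_univ _)
      · have := hL m hm
        omega
    intro m hm m' hm'
    rw [h2 m hm, h2 m' hm']

/-- the colours around a low clique on four vertices -/
theorem same_pairs {G : SimpleGraph V} {S R M : Finset V} (hS : CrOn G S 5) (hU : R ∪ M = S)
    (hd : Disjoint R M) (hM : M.card = 4) (hq : Clq G M) (hdg : ∀ m ∈ M, dg G S m = 5)
    {φ : V → Fin 5} (hφ : PC G R φ) : ∀ m ∈ M, ∀ m' ∈ M,
      (R.filter fun y => G.Adj m y).image φ = (R.filter fun y => G.Adj m' y).image φ := by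
  have h2 : ∀ m ∈ M, dg G R m = 2 := by
    intro m hm
    have h1 := hdg m hm
    rw [← hU, Pool.Agent.O2.dg_union hd, Pool.Agent.OW28.clq_dg hq hm, hM] at h1
    omega
  have key := clique_lists (M := M)
    (L := fun m => univ \ (R.filter fun y => G.Adj m y).image φ) hM ?_ ?_
  · intro m hm m' hm'
    have := key m hm m' hm'
    have h3 := congrArg (fun s => univ \ s) this
    simpa using h3
  · intro m hm
    have h3 : ((R.filter fun y => G.Adj m y).image φ).card ≤ 2 := card_image_le.trans (h2 m hm).le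
    have h4 : (univ \ (R.filter fun y => G.Adj m y).image φ).card =
        5 - ((R.filter fun y => G.Adj m y).image φ).card := by
      rw [card_sdiff_of_subset (subset_univ _)]
      simp
    omega
  · rintro ⟨g, hg1, hg2⟩
    apply hS.1
    refine Pool.Agent.O2.cb_of_pc (φ := Pool.Agent.OW28.mix M g φ) ?_
    apply Pool.Agent.OW28.mix_pc
    · refine Pool.Agent.O2.pc_sub ?_ hφ
      intro v hv
      obtain ⟨h3, h4⟩ := mem_sdiff.1 hv
      rw [← hU] at h3
      exact (mem_union.1 h3).resolve_right h4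
    · intro a ha b hb hab e
      exact hab (hg2 a ha b hb e)
    · intro a ha b hb hbM hab e
      have h3 := (mem_sdiff.1 (hg1 a ha)).2
      apply h3
      rw [e]
      rw [← hU] at hb
      exact mem_image_of_mem φ (mem_filter.2 ⟨(mem_union.1 hb).resolve_right hbM, hab⟩)

/-- a `5`-clique has two vertices which are not low -/
theorem two_high5 {G : SimpleGraph V} {S : Finset V} (h : Cex G S 5 b5) : ∀ X ⊆ S, Clq G X →
    X.card = 5 → 2 ≤ (X.filter fun t => ¬ dg G S t = 5).card :=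
  fun X hX hq hk => Pool.Agent.OW28.two_high (by omega) h.cr (Pool.Agent.OK5.add_one h)
    (Pool.Agent.OK5.no_ce h) hX hq hk

/-- the residue `3`: proper subsets of residue `4` -/
theorem b4_eight {G : SimpleGraph V} {S : Finset V} (h : Cex G S 5 b5) (T : T6 5 b5)
    (hr : (S.card - 1) % 5 = 3)
    (hTab : ∀ X ⊆ S, X ≠ S → 6 ≤ X.card → (X.card - 1) % 5 ≠ 0 → 6 ≤ Yy G 5 b5 X) :
    ∀ R ⊆ S, R ≠ S → 6 ≤ R.card → (R.card - 1) % 5 = 4 → 8 ≤ Yy G 5 b5 R := by
  intro R hR hne hc hb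
  by_contra hlt
  have hY4 := Pool.Agent.OK5.Y_four h
  have hY2 := Pool.Agent.OK5.Y_two h
  have hY3 : ∀ X ⊆ S, X ≠ S → 5 + 1 ≤ X.card → 3 ≤ Yy G 5 b5 X := fun X h1 h2 h3 => by
    have := hY4 X h1 h2 h3
    linarith
  have hE0 := two_high5 h
  have hev := Yy_even G R
  have h6 := hTab R hR hne hc (by omega)
  have hY6 : Yy G 5 b5 R = 6 := by omega
  obtain ⟨ψ, A, Z, hst, hY, hQ, hg, hg1⟩ :=
    good_step (by omega) h.cr h.ih (Pool.Agent.OK5.ae_one h) hR hne hc
  have hA1 : 1 ≤ A.card := card_pos.2 hst.neA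
  have hcu := hst.card_union
  have e1 : (R ∪ A).card - 1 = R.card - 1 + A.card := by omega
  -- the step is final
  have hU : R ∪ A = S := by
    by_contra hU
    obtain ⟨n1, n2⟩ := n4_up (R.card - 1) A.card Z.card hb hst.Z_pos hst.Z_le hA1
    by_cases h0 : (R.card - 1 + A.card) % 5 = 0
    · have := hY4 (R ∪ A) hst.sub_union hU (by omega)
      have := n2 h0
      linarith
    · have := hTab (R ∪ A) hst.sub_union hU (by omega) (by rw [e1]; exact h0)
      linarith
  have hma : (R.card - 1 + A.card) % 5 = 3 := by rw [← e1, hU]; exact hr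
  obtain ⟨n1, n2, n3⟩ := n4_last (R.card - 1) A.card Z.card hb hst.Z_pos hst.Z_le hA1 hma
  have hYS : Yy G 5 b5 (R ∪ A) = Yy G 5 b5 S := by rw [hU]
  have hs2 : Z.card = 2 := by
    by_contra hs2
    by_cases hs1 : Z.card = 1
    · have := hg1 hU hs1
      linarith
    · have := n2 hs1 hs2
      linarith
  have hevQ := Yy_even (con G R ψ) (A.disjSum Z)
  have hQ0 : Yy (con G R ψ) 5 b5 (A.disjSum Z) = 0 := by omega
  have hg0 : gain G R ψ A Z = 0 := by linarith
  have hcQ := hst.card_Q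
  have hn3 := n3 hs2
  obtain ⟨hm, hmq, hml⟩ := flex_red T h.ih hY3 hE0 hst (card_pos.1 (by omega)) (hst.Q_lt hc) hU hg0
    (by rw [hcQ, hs2]; omega) hQ0
  have hA4 : A.card = 4 := by omega
  have hsame : ∀ φ : V → Fin 5, PC G R φ → ∀ m ∈ A, ∀ m' ∈ A,
      (R.filter fun y => G.Adj m y).image φ = (R.filter fun y => G.Adj m' y).image φ :=
    fun φ hφ => same_pairs h.cr hU hst.disj hA4 hmq hml hφ
  have hd2 : ∀ m ∈ A, dg G R m = 2 := by
    intro m hm
    have h1 := hml m hm
    rw [← hU, Pool.Agent.O2.dg_union hst.disj, Pool.Agent.OW28.clq_dg hmq hm, hA4] at h1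
    omega
  by_cases hall : ∀ m ∈ A, ∀ m' ∈ A, ∀ y ∈ R, G.Adj m y → G.Adj m' y
  · -- four twins
    obtain ⟨m, hm⟩ := hst.neA
    have h1 : A.erase m ⊆ tws G S m := by
      intro m' hm'
      obtain ⟨h2, h3⟩ := mem_erase.1 hm'
      refine c4_mem_tws.2 ⟨hst.subA h3, h2, hmq m hm m' h3 h2.symm, ?_⟩
      intro c hc hcm hcm'
      rw [← hU] at hc
      rcases mem_union.1 hc with h4 | h4
      · exact ⟨hall m hm m' h3 c h4, hall m' h3 m hm c h4⟩
      · exact ⟨fun _ => hmq m' h3 c h4 hcm'.symm, fun _ => hmq m hm c h4 hcm.symm⟩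
    have h2 := card_le_card h1
    rw [card_erase_of_mem hm, hA4] at h2
    have h3 := Pool.Agent.OK5.c4' h m (hst.subA hm) (hml m hm)
    omega
  · push Not at hall
    obtain ⟨m, hm, m', hm', p, hp, hmp, hm'p⟩ := hall
    obtain ⟨a, b, hab, hN⟩ := card_eq_two.1 (hd2 m' hm')
    have hpN : p ∉ R.filter fun y => G.Adj m' y := fun hh => hm'p (mem_filter.1 hh).2
    have haN : a ∈ R.filter fun y => G.Adj m' y := by rw [hN]; exact mem_insert_self _ _
    have hbN : b ∈ R.filter fun y => G.Adj m' y := by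
      rw [hN]; exact mem_insert_of_mem (mem_singleton_self _)
    have haR : a ∈ R := (mem_filter.1 haN).1
    have hbR : b ∈ R := (mem_filter.1 hbN).1
    have hpa : p ≠ a := by rintro rfl; exact hpN haN
    have hpb : p ≠ b := by rintro rfl; exact hpN hbN
    have hno : ¬ Cb (addE G {(p, a), (p, b)}) R 5 := by
      intro hcb
      obtain ⟨φ, hφ⟩ := (Pool.Agent.O2.cb_fin (by omega)).1 hcb
      have h1 : PC G R φ := fun x hx y hy hxy => hφ x hx y hy (Or.inl hxy)
      have h2 : φ p ≠ φ a := hφ p hp a haR (Or.inr ⟨hpa, Or.inl (by simp)⟩)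
      have h3 : φ p ≠ φ b := hφ p hp b hbR (Or.inr ⟨hpb, Or.inl (by simp)⟩)
      have h4 : φ p ∈ (R.filter fun y => G.Adj m y).image φ :=
        mem_image_of_mem φ (mem_filter.2 ⟨hp, hmp⟩)
      rw [hsame φ h1 m hm m' hm', hN, image_insert, image_singleton, mem_insert,
        mem_singleton] at h4
      rcases h4 with h4 | h4
      · exact h2 h4
      · exact h3 h4
    obtain ⟨X, hXR, hXcr, hXc, hXS, hXn, hXY⟩ := addE_small h.cr h.ih hR hne hno
    have hF2 : ({(p, a), (p, b)} : Finset (V × V)).card ≤ 2 := card_le_two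
    have hXF : ((newE G {(p, a), (p, b)} X).card : ℤ) ≤ 2 := by
      exact_mod_cast (newE_card_le G {(p, a), (p, b)} X).trans hF2
    have hXsub : X ⊆ S := hXR.trans hR
    have hXne : X ≠ S := by rintro rfl; exact absurd hXS (lt_irrefl _)
    have hX4 := hY4 X hXsub hXne hXc
    have hX0 : (X.card - 1) % 5 = 0 := by
      by_contra hcon
      have := hTab X hXsub hXne hXc hcon
      linarith
    obtain ⟨ψ', A', Z', hst', hY', hQ', hg', hg1'⟩ :=
      good_step (by omega) h.cr h.ih (Pool.Agent.OK5.ae_one h) hXsub hXne hXc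
    have hA1' : 1 ≤ A'.card := card_pos.2 hst'.neA
    have hcu' := hst'.card_union
    have e1' : (X ∪ A').card - 1 = X.card - 1 + A'.card := by omega
    have hU' : X ∪ A' = S := by
      by_contra hU'
      have n1 := n0_up (X.card - 1) A'.card Z'.card hX0 hst'.Z_pos hst'.Z_le hA1'
      have := hY4 (X ∪ A') hst'.sub_union hU' (by omega)
      linarith
    have hma' : (X.card - 1 + A'.card) % 5 = 3 := by rw [← e1', hU']; exact hr
    obtain ⟨k1, k2, k3⟩ := n0_last (X.card - 1) A'.card Z'.card hX0 hst'.Z_pos hst'.Z_le hA1' hma'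
    have hYS' : Yy G 5 b5 (X ∪ A') = Yy G 5 b5 S := by rw [hU']
    have hs3 : Z'.card = 3 := by
      by_contra hs3
      by_cases hs1 : Z'.card = 1
      · have := hg1' hU' hs1
        linarith
      · have := k2 hs1 hs3
        linarith
    have hQ0' : Yy (con G X ψ') 5 b5 (A'.disjSum Z') = 0 := by linarith
    have hg0' : gain G X ψ' A' Z' = 0 := by linarith
    have hcQ' := hst'.card_Q
    have hk3 := k3 hs3
    obtain ⟨hm2, -, -⟩ := flex_red T h.ih hY3 hE0 hst' (card_pos.1 (by omega)) (hst'.Q_lt hXc)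
      hU' hg0' (by rw [hcQ', hs3]; omega) hQ0'
    have hcc := card_le_card hXR
    have hS1 : (R ∪ A).card = S.card := by rw [hU]
    have hS2 : (X ∪ A').card = S.card := by rw [hU']
    omega

end Pool.Agent.OX25
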