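import Pool.Agent.Lib_helper25.OW.T3

/-!
# Tight critical sets of residue 0, weaker numeric hypotheses

The hypotheses hold for Ore's table for all `K ≥ 4`.
-/

set_option autoImplicit false
set_option linter.unusedSectionVars false
set_option linter.unusedVariables false

open scoped Classical
open Finset
open Pool.Agent.O2 (PC Cb CrOn pr ms dg nd addE)
open Pool.Agent.O3 (con hit Clq Non)
open Pool.Agent.OW
open Pool.Agent.OW.S5

namespace Pool.Agent.OX25

variable {V : Type}

/-- numeric facts for tight sets of residue 0 -/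
structure T6 (K : ℕ) (b : ℕ → ℤ) : Prop where
  hK : 4 ≤ K
  pos : ∀ m, K ∣ m → 0 < b m
  mul : ∀ m m', K ∣ m → K ∣ m' → b (m + m') = b m + b m' - (K - 1)
  n1 : ∀ m a s, 1 ≤ a → 1 ≤ s → s ≤ K → K + 1 ≤ a + s → 2 ≤ cst K b s m a
  n2 : ∀ m a s, 1 ≤ a → 1 ≤ s → s ≤ K → K + 1 ≤ a + s → ¬ K ∣ m → K ∣ m + a →
    2 * (K : ℤ) - 2 ≤ cst K b s m a
  n3a : ∀ m, K ∣ m → 1 ≤ m → b (m - 1) - b m + K + 1 ≤ 2
  n3b : ∀ m, ¬ K ∣ m → m % K ≠ 1 → b (m - 1) - b m + K + 1 < 2 * (K : ℤ) - 2 ∨
    (b (m - 1) - b m + K + 1 ≤ 2 * (K : ℤ) - 2 ∧ ∀ a s, 1 ≤ a → 1 ≤ s → s ≤ K →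
      K + 1 ≤ a + s → K ∣ m + a → 2 * (K : ℤ) - 2 < cst K b s m a)
  n3c : ∀ m, m % K = 1 → b (m - 1) - b m + K + 1 = 2 * (K : ℤ) - 2
  n4 : ∀ m a s, 1 ≤ a → 3 ≤ s → s ≤ K → K + 1 ≤ a + s → m % K = 1 → K ∣ m + a →
    2 * (K : ℤ) - 2 < cst K b s m a
  n5 : ∀ m a s, 1 ≤ a → 2 ≤ s → s ≤ K → K + 1 ≤ a + s → K ∣ m → K ∣ a → 4 < cst K b s m a

theorem T6.of5 {K : ℕ} {b : ℕ → ℤ} (T : T5 K b) : T6 K b :=
  ⟨T.hK, T.pos, T.mul, T.n1, T.n2, T.n3a, fun m h1 h2 => Or.inl (T.n3b m h1 h2), T.n3c, T.n4, T.n5⟩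

/-- the gap -/
theorem gap6 {K : ℕ} {b : ℕ → ℤ} (T : T6 K b) {G : SimpleGraph V} {H : Finset V}
    (hcl : IH K b (H.card + 1)) (hH : Tgt K b G H) : ∀ (n : ℕ) (R : Finset V), PS G H R →
    (H \ R).card = n → 2 ≤ Yy G K b R ∧ (¬ K ∣ R.card - 1 → 2 * (K : ℤ) - 2 ≤ Yy G K b R) := by
  intro n
  induction n using Nat.strong_induction_on with
  | _ n ih =>
  intro R hR hn
  have hK : 0 < K := by have := T.hK; omega
  obtain ⟨ψ, hψ, hni⟩ := hR.noninj hK hH.cr
  obtain ⟨W, Z, hW, hWc, hZc, hZK, hge, hcr, hhit, hlt, hY, heq⟩ := step hK hcl hH.cr hR hψ hni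
  have hg := gain_nonneg G R ψ W Z
  have hc1 := T.n1 (R.card - 1) W.card Z.card hWc hZc hZK hge
  have hRc := card_pos.2 hR.nonempty
  have hdis : Disjoint R W := by
    rw [disjoint_left]
    intro x hx hx'
    exact (mem_sdiff.1 (hW hx')).2 hx
  have hcu : (R ∪ W).card = R.card + W.card := card_union_of_disjoint hdis
  by_cases hU : R ∪ W = H
  · rw [hU, hH.eq] at heq
    refine ⟨by linarith, fun hr => ?_⟩
    have h2 : K ∣ R.card - 1 + W.card := by
      have := hH.res
      rw [← hU, hcu] at this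
      have h3 : R.card + W.card - 1 = R.card - 1 + W.card := by omega
      rwa [h3] at this
    have hc2 := T.n2 (R.card - 1) W.card Z.card hWc hZc hZK hge hr h2
    linarith
  · have hPU := union_ps hR hW hU
    have hlt' : (H \ (R ∪ W)).card < n := by
      rw [← hn]
      apply card_lt_card
      refine ⟨fun x hx => ?_, fun hx => ?_⟩
      · have := mem_sdiff.1 hx
        exact mem_sdiff.2 ⟨this.1, fun h => this.2 (mem_union_left _ h)⟩
      · obtain ⟨w, hw⟩ := card_pos.1 hWc
        have := hx (hW hw)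
        exact (mem_sdiff.1 this).2 (mem_union_right _ hw)
    obtain ⟨h1, h2⟩ := ih _ hlt' (R ∪ W) hPU rfl
    refine ⟨by linarith, fun hr => ?_⟩
    by_cases hd : K ∣ (R ∪ W).card - 1
    · have h3 : R.card + W.card - 1 = R.card - 1 + W.card := by omega
      rw [hcu, h3] at hd
      have hc2 := T.n2 (R.card - 1) W.card Z.card hWc hZc hZK hge hr hd
      linarith
    · have := h2 hd
      linarith

theorem tgap6 {K : ℕ} {b : ℕ → ℤ} (T : T6 K b) {G : SimpleGraph V} {H R : Finset V}
    (hcl : IH K b (H.card + 1)) (hH : Tgt K b G H) (hR : PS G H R) :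
    2 ≤ Yy G K b R ∧ (¬ K ∣ R.card - 1 → 2 * (K : ℤ) - 2 ≤ Yy G K b R) :=
  gap6 T hcl hH _ R hR rfl

/-- the step from a set with `Y ≤ 2` -/
theorem teq6 {K : ℕ} {b : ℕ → ℤ} (T : T6 K b) {G : SimpleGraph V} {H R : Finset V}
    (hcl : IH K b (H.card + 1)) (hH : Tgt K b G H) (hR : PS G H R) (hY : Yy G K b R ≤ 2)
    {ψ : V → Fin K} (hψ : PC G R ψ) (hni : ∃ a ∈ R, ∃ c ∈ R, a ≠ c ∧ ψ a = ψ c) :
    K ∣ R.card - 1 ∧ Yy G K b R = 2 ∧ ∃ c : Fin K, Tgt K b (con G R ψ) ((H \ R).disjSum {c}) ∧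
      gain G R ψ (H \ R) {c} = 0 ∧ ((H \ R).disjSum {c}).card < H.card := by
  have hK : 0 < K := by have := T.hK; omega
  obtain ⟨W, Z, hW, hWc, hZc, hZK, hge, hcr, hhit, hlt, hY', heq⟩ := step hK hcl hH.cr hR hψ hni
  have hg := gain_nonneg G R ψ W Z
  have hc1 := T.n1 (R.card - 1) W.card Z.card hWc hZc hZK hge
  have hRc := card_pos.2 hR.nonempty
  have hdis : Disjoint R W := by
    rw [disjoint_left]
    intro x hx hx'
    exact (mem_sdiff.1 (hW hx')).2 hx
  have hcu : (R ∪ W).card = R.card + W.card := card_union_of_disjoint hdis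
  obtain ⟨hY2, hY3⟩ := tgap6 T hcl hH hR
  have hr : K ∣ R.card - 1 := by
    by_contra hr
    have := hY3 hr
    have hK3 : (4 : ℤ) ≤ K := by exact_mod_cast T.hK
    linarith
  have hU : R ∪ W = H := by
    by_contra hU
    have := (tgap6 T hcl hH (union_ps hR hW hU)).1
    linarith
  have hWe := union_eq hR.sub hW hU
  have hKW : K ∣ W.card := by
    have := hH.res
    rw [← hU, hcu] at this
    have h3 : R.card + W.card - 1 = R.card - 1 + W.card := by omega
    rw [h3] at this
    exact (Nat.dvd_add_right hr).1 this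
  rw [hU, hH.eq] at heq
  have hs : Z.card = 1 := by
    by_contra hs
    have := T.n5 (R.card - 1) W.card Z.card hWc (by omega) hZK hge hr hKW
    linarith
  obtain ⟨c, rfl⟩ := card_eq_one.1 hs
  have hYR : Yy G K b R = 2 := le_antisymm hY hY2
  have hg0 : gain G R ψ W {c} = 0 := by linarith
  have hY0 : Yy (con G R ψ) K b (W.disjSum {c}) = 0 := by linarith
  refine ⟨hr, hYR, c, ?_, ?_, ?_⟩
  · rw [← hWe]
    refine ⟨hcr, ?_, hY0⟩
    rw [card_disjSum, card_singleton, Nat.add_sub_cancel]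
    exact hKW
  · rw [← hWe]; exact hg0
  · rw [← hWe, card_disjSum]; exact hlt

theorem tight_clique6 {K : ℕ} {b : ℕ → ℤ} (T : T6 K b) {G : SimpleGraph V} {H : Finset V}
    (ih : IH K b (H.card + 1)) (hH : Tgt K b G H) (hno : ∀ R, PS G H R → 2 < Yy G K b R) :
    H.card = K + 1 := by
  have hK3 := T.hK
  have hK3' : (4 : ℤ) ≤ K := by exact_mod_cast hK3
  have hK : 0 < K := by omega
  by_contra hbig
  have hHc := hH.cr.card_ge
  -- a low vertex
  have hpos : 0 < df G K H := by
    have h1 := hH.eq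
    have h2 := T.pos _ hH.res
    unfold Yy at h1
    linarith
  obtain ⟨u, hu, hud⟩ := exists_low hH.cr hpos
  -- two non-adjacent neighbours
  have hxy : ∃ x ∈ H, ∃ y ∈ H, x ≠ y ∧ G.Adj u x ∧ G.Adj u y ∧ ¬ G.Adj x y := by
    by_contra hcon
    push Not at hcon
    set N := insert u (H.filter fun y => G.Adj u y) with hN
    have hNsub : N ⊆ H := by
      intro v hv
      rcases mem_insert.1 hv with rfl | hv
      · exact hu
      · exact (mem_filter.1 hv).1
    have hNc : N.card = K + 1 := by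
      rw [hN, card_insert_of_notMem]
      · unfold dg at hud; rw [hud]
      · intro h
        exact G.irrefl (mem_filter.1 h).2
    have hNe : N ≠ H := by
      intro h
      rw [h] at hNc
      exact hbig hNc
    have hcb := hH.cr.sub hNsub hNe
    obtain ⟨φ, hφ⟩ := (Pool.Agent.O2.cb_fin hK).1 hcb
    have h1 : (univ : Finset (Fin K)).card < N.card := by
      rw [hNc]; simp
    obtain ⟨a, ha, c, hc, hac, he⟩ :=
      exists_ne_map_eq_of_card_lt_of_maps_to h1 (f := φ) (fun x _ => mem_coe.2 (mem_univ _))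
    refine hφ a ha c hc ?_ he
    rcases mem_insert.1 ha with h2 | h2
    · rcases mem_insert.1 hc with h3 | h3
      · exact absurd (h2.trans h3.symm) hac
      · rw [h2]; exact (mem_filter.1 h3).2
    · rcases mem_insert.1 hc with h3 | h3
      · rw [h3]; exact (mem_filter.1 h2).2.symm
      · have h4 := mem_filter.1 h2
        have h5 := mem_filter.1 h3
        exact hcon a h4.1 c h5.1 hac h4.2 h5.2
  obtain ⟨x, hx, y, hy, hxy, hux, huy, hna⟩ := hxy
  -- the pair set
  obtain ⟨A, hA, hAn, hAcr, hAdf, hAc, hAlow⟩ := pair_con hK hH.cr hx hy hxy hna ⟨0, hK⟩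
  have huA : u ∉ A := hAlow u hu hux huy hud.le
  set W : Finset V := {x, y} ∪ A with hW
  have hxW : x ∈ W := mem_union_left _ (mem_insert_self _ _)
  have hyW : y ∈ W := mem_union_left _ (mem_insert_of_mem (mem_singleton_self _))
  have huW : u ∉ W := by
    intro h
    rcases mem_union.1 h with h | h
    · rcases mem_insert.1 h with h | h
      · exact hux.ne h
      · exact huy.ne (mem_singleton.1 h)
    · exact huA h
  have hWH : W ⊆ H := by
    intro v hv
    rcases mem_union.1 hv with h | h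
    · rcases mem_insert.1 h with h | h
      · rw [h]; exact hx
      · rw [mem_singleton.1 h]; exact hy
    · exact (mem_sdiff.1 (hA h)).1
  have hWne : W ≠ H := fun h => huW (h ▸ hu)
  have hWps : PS G H W := ⟨hWH, hWne, x, hxW, y, hyW, hxy, hna⟩
  have hAK : K ≤ A.card := by
    have := hAcr.card_ge
    rw [card_disjSum, card_singleton] at this
    omega
  have hAcH : (A.disjSum ({⟨0, hK⟩} : Finset (Fin K))).card < H.card + 1 := by
    rw [card_disjSum, card_singleton]
    have := card_le_card hWH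
    omega
  have hAle := ih _ _ _ hAcr hAcH
  have hAcc : (A.disjSum ({⟨0, hK⟩} : Finset (Fin K))).card - 1 = W.card - 1 - 1 := by
    rw [card_disjSum, card_singleton]
    omega
  rw [hAcc] at hAle
  have hAg := gain_nonneg G {x, y} (fun _ : V => (⟨0, hK⟩ : Fin K)) A {⟨0, hK⟩}
  have hYW : Yy G K b W ≤ b (W.card - 1 - 1) - b (W.card - 1) + K + 1 := by
    unfold Yy
    rw [hAdf]
    linarith
  have hWgap := tgap6 T ih hH hWps
  have hWno := hno W hWps
  have hWK : W.card = A.card + 2 := hAc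
  -- residue 1
  have hr0 : ¬ K ∣ W.card - 1 := by
    intro h
    have := T.n3a _ h (by omega)
    linarith
  have hr1 : (W.card - 1) % K = 1 := by
    by_contra h
    have h2 := hWgap.2 hr0
    rcases T.n3b _ hr0 h with h1 | ⟨h1, h3⟩
    · linarith
    · -- equality in the gap: only a last step is possible
      obtain ⟨φ, hφ, hni⟩ := hWps.noninj hK hH.cr
      obtain ⟨B, Z, hB, hBc, hZc, hZK, hge, hcr, hhit, hlt, hY', heq⟩ :=
        step hK ih hH.cr hWps hφ hni
      have hg := gain_nonneg G W φ B Z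
      have hc1 := T.n1 (W.card - 1) B.card Z.card hBc hZc hZK hge
      have hdis : Disjoint W B := by
        rw [disjoint_left]
        intro x hx hx'
        exact (mem_sdiff.1 (hB hx')).2 hx
      have hcu : (W ∪ B).card = W.card + B.card := card_union_of_disjoint hdis
      have hcu' : (W ∪ B).card - 1 = W.card - 1 + B.card := by omega
      by_cases hU : W ∪ B = H
      · have hdvd : K ∣ W.card - 1 + B.card := by
          rw [← hcu', hU]
          exact hH.res
        have hc2 := h3 B.card Z.card hBc hZc hZK hge hdvd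
        rw [hU, hH.eq] at heq
        linarith
      · have hPU := union_ps hWps hB hU
        have h5 := hno _ hPU
        have h6 := tgap6 T ih hH hPU
        by_cases hd : K ∣ (W ∪ B).card - 1
        · rw [hcu'] at hd
          have hc2 := T.n2 (W.card - 1) B.card Z.card hBc hZc hZK hge hr0 hd
          linarith
        · have := h6.2 hd
          linarith
  have hYW2 : Yy G K b W = 2 * (K : ℤ) - 2 := by
    have h1 := T.n3c _ hr1
    have h2 := hWgap.2 hr0
    linarith
  -- every colouring of `W`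
  have key : ∀ φ : V → Fin K, PC G W φ → ∃ Z : Finset (Fin K), Z = {φ x, φ y} ∧ φ x ≠ φ y ∧
      CrOn (con G W φ) ((H \ W).disjSum Z) K ∧ ∀ v ∈ H \ W, ∀ w ∈ W, G.Adj v w → φ w ∈ Z := by
    intro φ hφ
    have hni : ∃ a ∈ W, ∃ c ∈ W, a ≠ c ∧ φ a = φ c := by
      have h1 : (univ : Finset (Fin K)).card < W.card := by
        rw [card_univ, Fintype.card_fin]; omega
      obtain ⟨a, ha, c, hc, hac, he⟩ :=
        exists_ne_map_eq_of_card_lt_of_maps_to h1 (f := φ) (fun x _ => mem_coe.2 (mem_univ _))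
      exact ⟨a, ha, c, hc, hac, he⟩
    obtain ⟨B, Z, hB, hBc, hZc, hZK, hge, hcr, hhit, hlt, hY', heq⟩ :=
      step hK ih hH.cr hWps hφ hni
    have hg := gain_nonneg G W φ B Z
    have hc1 := T.n1 (W.card - 1) B.card Z.card hBc hZc hZK hge
    have hdis : Disjoint W B := by
      rw [disjoint_left]
      intro x hx hx'
      exact (mem_sdiff.1 (hB hx')).2 hx
    have hcu : (W ∪ B).card = W.card + B.card := card_union_of_disjoint hdis
    have hcu' : (W ∪ B).card - 1 = W.card - 1 + B.card := by omega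
    have hU : W ∪ B = H := by
      by_contra hU
      have hPU := union_ps hWps hB hU
      have h1 := hno _ hPU
      have h2 := tgap6 T ih hH hPU
      by_cases hd : K ∣ (W ∪ B).card - 1
      · rw [hcu'] at hd
        have hc2 := T.n2 (W.card - 1) B.card Z.card hBc hZc hZK hge hr0 hd
        linarith
      · have := h2.2 hd
        linarith
    have hdvd : K ∣ W.card - 1 + B.card := by
      rw [← hcu', hU]
      exact hH.res
    have hBe := union_eq hWH hB hU
    have hc2 := T.n2 (W.card - 1) B.card Z.card hBc hZc hZK hge hr0 hdvd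
    rw [hU, hH.eq] at heq
    have hZ2 : Z.card ≤ 2 := by
      by_contra hZ
      have := T.n4 (W.card - 1) B.card Z.card hBc (by omega) hZK hge hr1 hdvd
      linarith
    have hg0 : gain G W φ B Z = 0 := by linarith
    have huB : u ∈ B := by
      rw [hBe]
      exact mem_sdiff.2 ⟨hu, huW⟩
    have hzr : ∀ v ∈ B, (∀ y ∈ W, G.Adj v y → φ y ∈ Z) ∧
        ∀ y ∈ W, ∀ y' ∈ W, G.Adj v y → G.Adj v y' → φ y = φ y' → y = y' :=
      fun v hv => gain_zero_rainbow hg0 hv
    have hxy' : φ x ≠ φ y := fun e => hxy ((hzr u huB).2 x hxW y hyW hux huy e)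
    have hZe : Z = {φ x, φ y} := by
      symm
      apply eq_of_subset_of_card_le
      · intro i hi
        rcases mem_insert.1 hi with rfl | hi
        · exact (hzr u huB).1 x hxW hux
        · rw [mem_singleton.1 hi]
          exact (hzr u huB).1 y hyW huy
      · rw [card_pair hxy']
        exact hZ2
    refine ⟨Z, hZe, hxy', ?_, ?_⟩
    · rw [← hBe]; exact hcr
    · intro v hv w hw hvw
      rw [← hBe] at hv
      exact (hzr v hv).1 w hw hvw
  -- a third vertex on the boundary
  have hw : ∃ w ∈ W, w ≠ x ∧ w ≠ y ∧ ∃ v ∈ H \ W, G.Adj v w := by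
    by_contra hcon
    push Not at hcon
    have hB2 : (H \ W) ∪ {x, y} ⊆ H := by
      apply union_subset sdiff_subset
      intro v hv
      rcases mem_insert.1 hv with h | h
      · rw [h]; exact hx
      · rw [mem_singleton.1 h]; exact hy
    have hB3 : (H \ W) ∪ {x, y} ≠ H := by
      obtain ⟨a, ha⟩ := hAn
      intro h
      have h1 := hA ha
      have h2 := mem_sdiff.1 h1
      have h3 := h2.1
      rw [← h] at h3
      rcases mem_union.1 h3 with h4 | h4
      · exact (mem_sdiff.1 h4).2 (mem_union_right _ ha)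
      · exact h2.2 h4
    obtain ⟨ψ, hψ, hψxy⟩ := one_edge hK ih hH.cr hno hB2 hB3
      (mem_union_right _ (mem_insert_self x {y}))
      (mem_union_right _ (mem_insert_of_mem (mem_singleton_self y))) hxy
    obtain ⟨φ, hφ⟩ := (Pool.Agent.O2.cb_fin hK).1 (hWps.cb hH.cr)
    obtain ⟨Z, hZ, hxy', hcr, -⟩ := key φ hφ
    apply hcr.1
    apply Pool.Agent.O2.cb_of_pc (φ := Sum.elim ψ fun i => if i = φ x then ψ x else ψ y)
    have hxm : x ∈ (H \ W) ∪ {x, y} := mem_union_right _ (mem_insert_self x {y})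
    have hym : y ∈ (H \ W) ∪ {x, y} :=
      mem_union_right _ (mem_insert_of_mem (mem_singleton_self y))
    have hlr : ∀ v ∈ H \ W, ∀ i, i ∈ hit G W φ v → ψ v ≠ if i = φ x then ψ x else ψ y := by
      intro v hv i hi
      simp only [hit, mem_filter, mem_univ, true_and] at hi
      obtain ⟨w, hw, rfl, hvw⟩ := hi
      by_cases hwx : w = x
      · rw [hwx, if_pos rfl]
        rw [hwx] at hvw
        exact hψ v (mem_union_left _ hv) x hxm hvw
      · by_cases hwy : w = y
        · rw [hwy, if_neg hxy'.symm]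
          rw [hwy] at hvw
          exact hψ v (mem_union_left _ hv) y hym hvw
        · exact absurd hvw (hcon w hw hwx hwy v hv)
    rintro (a | i) ha (c | j) hc hac
    · exact hψ a (mem_union_left _ (inl_mem_disjSum.1 ha)) c
        (mem_union_left _ (inl_mem_disjSum.1 hc)) hac
    · exact hlr a (inl_mem_disjSum.1 ha) j hac
    · exact (hlr c (inl_mem_disjSum.1 hc) i hac).symm
    · have hij : i ≠ j := hac
      have hi := inr_mem_disjSum.1 ha
      have hj := inr_mem_disjSum.1 hc
      rw [hZ, mem_insert, mem_singleton] at hi hj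
      show (if i = φ x then ψ x else ψ y) ≠ if j = φ x then ψ x else ψ y
      rcases hi with hi | hi <;> rcases hj with hj | hj
      · exact absurd (hi.trans hj.symm) hij
      · rw [hi, hj, if_pos rfl, if_neg hxy'.symm]; exact hψxy
      · rw [hi, hj, if_pos rfl, if_neg hxy'.symm]; exact hψxy.symm
      · exact absurd (hi.trans hj.symm) hij
  obtain ⟨w, hwW, hwx, hwy, v, hv, hvw⟩ := hw
  -- two added edges
  set F : Finset (V × V) := {(w, x), (w, y)} with hF
  have hnc : ¬ Cb (addE G F) W K := by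
    intro hc
    obtain ⟨φ, hφ⟩ := (Pool.Agent.O2.cb_fin hK).1 hc
    have hφ' : PC G W φ := fun a ha c hc hac => hφ a ha c hc (Or.inl hac)
    obtain ⟨Z, hZ, -, -, hbd⟩ := key φ hφ'
    have h1 := hbd v hv w hwW hvw
    rw [hZ, mem_insert, mem_singleton] at h1
    rcases h1 with h1 | h1
    · exact hφ w hwW x hxW (Or.inr ⟨hwx, Or.inl (by rw [hF]; exact mem_insert_self _ _)⟩) h1
    · exact hφ w hwW y hyW (Or.inr ⟨hwy, Or.inl (by
        rw [hF]; exact mem_insert_of_mem (mem_singleton_self _))⟩) h1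
  have hWlt : W.card < H.card + 1 := by
    have := card_le_card hWH
    omega
  obtain ⟨W₂, hW₂, hW₂cr, hW₂non, hW₂K, hW₂Y⟩ := addE_small ih hWlt (hWps.cb hH.cr) hnc
  have huW₂ : u ∉ W₂ := fun h => huW (hW₂ h)
  have hW₂ps : PS G H W₂ := ⟨hW₂.trans hWH, fun e => huW₂ (e ▸ hu), hW₂non⟩
  have hW₂no := hno _ hW₂ps
  have hall : w ∈ W₂ ∧ x ∈ W₂ ∧ y ∈ W₂ := by
    by_contra hcon
    have h1 : (F.filter fun p => p.1 ∈ W₂ ∧ p.2 ∈ W₂).card ≤ 1 := by
      by_contra hc
      have h2 : F.card ≤ 2 := by rw [hF]; exact card_le_two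
      have h3 : F.filter (fun p => p.1 ∈ W₂ ∧ p.2 ∈ W₂) = F :=
        eq_of_subset_of_card_le (filter_subset _ _) (by omega)
      rw [filter_eq_self] at h3
      have h4 := h3 (w, x) (by rw [hF]; exact mem_insert_self _ _)
      have h5 := h3 (w, y) (by rw [hF]; exact mem_insert_of_mem (mem_singleton_self _))
      exact hcon ⟨h4.1, h4.2, h5.2⟩
    have h2 : ((F.filter fun p => p.1 ∈ W₂ ∧ p.2 ∈ W₂).card : ℤ) ≤ 1 := by exact_mod_cast h1
    linarith
  obtain ⟨hwW₂, hxW₂, hyW₂⟩ := hall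
  have hW₂4 : Yy G K b W₂ ≤ 4 := by
    have h1 : (F.filter fun p => p.1 ∈ W₂ ∧ p.2 ∈ W₂).card ≤ 2 :=
      (card_filter_le _ _).trans (by rw [hF]; exact card_le_two)
    have h2 : ((F.filter fun p => p.1 ∈ W₂ ∧ p.2 ∈ W₂).card : ℤ) ≤ 2 := by exact_mod_cast h1
    linarith
  have hW₂gap := tgap6 T ih hH hW₂ps
  have hW₂r : K ∣ W₂.card - 1 := by
    by_contra h
    have := hW₂gap.2 h
    linarith
  obtain ⟨ψ, hψ, hψwy⟩ := one_edge hK ih hH.cr hno hW₂ps.sub hW₂ps.ne hwW₂ hyW₂ hwy
  have hψwx : ψ w = ψ x := by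
    by_contra hne
    apply hW₂cr.1
    apply Pool.Agent.O2.cb_of_pc (φ := ψ)
    intro a ha c hc hac
    have hF' : ∀ p q : V, (p, q) ∈ F → ψ p ≠ ψ q := by
      intro p q hpq
      rw [hF, mem_insert, mem_singleton] at hpq
      rcases hpq with h | h
      · rw [Prod.mk.injEq] at h
        rw [h.1, h.2]; exact hne
      · rw [Prod.mk.injEq] at h
        rw [h.1, h.2]; exact hψwy
    rcases hac with hac | ⟨-, hac | hac⟩
    · exact hψ a ha c hc hac
    · exact hF' a c hac
    · exact (hF' c a hac).symm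
  have hψxy : ψ x ≠ ψ y := fun e => hψwy (hψwx.trans e)
  obtain ⟨B, Z, hB, hBc, hZc, hZK, hge, hcr, hhit, hlt, hY', heq⟩ :=
    step hK ih hH.cr hW₂ps hψ ⟨w, hwW₂, x, hxW₂, hwx, hψwx⟩
  have hg := gain_nonneg G W₂ ψ B Z
  have hc1 := T.n1 (W₂.card - 1) B.card Z.card hBc hZc hZK hge
  have hdis : Disjoint W₂ B := by
    rw [disjoint_left]
    intro x hx hx'
    exact (mem_sdiff.1 (hB hx')).2 hx
  have hcu : (W₂ ∪ B).card = W₂.card + B.card := card_union_of_disjoint hdis
  have hcu' : (W₂ ∪ B).card - 1 = W₂.card - 1 + B.card := by omega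
  have hU : W₂ ∪ B = H := by
    by_contra hU
    have h1 := hno _ (union_ps hW₂ps hB hU)
    linarith
  have hBd : K ∣ B.card := by
    have h1 : K ∣ W₂.card - 1 + B.card := by
      rw [← hcu', hU]
      exact hH.res
    exact (Nat.dvd_add_right hW₂r).1 h1
  rw [hU, hH.eq] at heq
  have hZ1 : Z.card = 1 := by
    by_contra hZ
    have := T.n5 (W₂.card - 1) B.card Z.card hBc (by omega) hZK hge hW₂r hBd
    linarith
  have huB : u ∈ B := by
    rw [union_eq hW₂ps.sub hB hU]
    exact mem_sdiff.2 ⟨hu, huW₂⟩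
  have h1 := hcr.dg_ge (inl_mem_disjSum.2 huB)
  rw [Pool.Agent.O3.dg_con_inl] at h1
  have h2 : (hit G W₂ ψ u ∩ Z).card ≤ 1 := by
    rw [← hZ1]
    exact card_le_card inter_subset_right
  have h3 : 2 ≤ dg G W₂ u := by
    have h4 : ({x, y} : Finset V) ⊆ W₂.filter fun v => G.Adj u v := by
      intro v hv
      rcases mem_insert.1 hv with h | h
      · rw [h]; exact mem_filter.2 ⟨hxW₂, hux⟩
      · rw [mem_singleton.1 h]; exact mem_filter.2 ⟨hyW₂, huy⟩
    have h5 := card_le_card h4
    rw [card_pair hxy] at h5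
    exact h5
  have h4 := Pool.Agent.O2.dg_union (G := G) hdis u
  rw [hU, hud] at h4
  omega

theorem lemmaT6 {K : ℕ} {b : ℕ → ℤ} (T : T6 K b) {G : SimpleGraph V} {H : Finset V}
    (ih : IH K b (H.card + 1)) (hH : Tgt K b G H) {z : V} (hz : z ∈ H)
    (hsm : ∀ R, PS G H R → Yy G K b R ≤ 2 → z ∈ R) :
    ∃ Q ⊆ H.erase z, Q.card = K ∧ Clq G Q ∧ ∀ t ∈ Q, dg G H t = K := by
  have hK4 := T.hK
  have hK4' : (4 : ℤ) ≤ K := by exact_mod_cast hK4
  have hK : 0 < K := by omega
  by_cases hno : ∀ R, PS G H R → 2 < Yy G K b R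
  · have hc := tight_clique6 T ih hH hno
    have hq := clq_of_card hH.cr hc
    refine ⟨H.erase z, Subset.refl _, ?_, ?_, ?_⟩
    · rw [card_erase_of_mem hz, hc]; rfl
    · intro a ha c hc hac
      exact hq a (mem_of_mem_erase ha) c (mem_of_mem_erase hc) hac
    · intro t ht
      have := dg_of_clq hq (mem_of_mem_erase ht)
      omega
  push Not at hno
  obtain ⟨R₀, hR₀, hR₀Y⟩ := hno
  have hne : (H.powerset.filter fun R => PS G H R ∧ Yy G K b R ≤ 2).Nonempty :=
    ⟨R₀, mem_filter.2 ⟨mem_powerset.2 hR₀.sub, hR₀, hR₀Y⟩⟩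
  obtain ⟨R, hR, hmax⟩ := exists_max_image _ card hne
  obtain ⟨-, hRps, hRY⟩ := mem_filter.1 hR
  have hzR := hsm R hRps hRY
  obtain ⟨ψ, hψ, hni⟩ := hRps.noninj hK hH.cr
  obtain ⟨hRd, hRY2, c, hT', hg, hlt⟩ := teq6 T ih hH hRps hRY hψ hni
  have ih' : IH K b (((H \ R).disjSum {c}).card + 1) := by
    intro V' G' S' h1 h2
    exact ih V' G' S' h1 (by omega)
  have hRc := card_pos.2 hRps.nonempty
  have hcc : ∀ A : Finset V, (A.disjSum ({c} : Finset (Fin K))).card = A.card + 1 := by
    intro A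
    rw [card_disjSum, card_singleton]
  have hno' : ∀ R', PS (con G R ψ) ((H \ R).disjSum {c}) R' →
      2 < Yy (con G R ψ) K b R' := by
    intro R' hR'
    by_contra hle
    rw [not_lt] at hle
    obtain ⟨A, Z, rfl⟩ := eq_disjSum R'
    have hA : A ⊆ H \ R := fun v hv => inl_mem_disjSum.1 (hR'.sub (inl_mem_disjSum.2 hv))
    have hZ : Z ⊆ {c} := fun v hv => inr_mem_disjSum.1 (hR'.sub (inr_mem_disjSum.2 hv))
    have hzA : z ∉ A := fun h => (mem_sdiff.1 (hA h)).2 hzR
    rcases subset_singleton_iff.1 hZ with h0 | h0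
    · subst h0
      rw [Yy_con_empty] at hle
      refine hzA (hsm A ⟨hA.trans sdiff_subset, fun e => hzA (e ▸ hz), ?_⟩ hle)
      obtain ⟨p, hp, q, hq, hpq, hna⟩ := hR'.non
      obtain ⟨p', rfl⟩ | ⟨i, rfl⟩ : (∃ p', p = Sum.inl p') ∨ ∃ i, p = Sum.inr i := by
        rcases p with p' | i
        · exact Or.inl ⟨p', rfl⟩
        · exact Or.inr ⟨i, rfl⟩
      · obtain ⟨q', rfl⟩ | ⟨j, rfl⟩ : (∃ q', q = Sum.inl q') ∨ ∃ i, q = Sum.inr i := by
          rcases q with q' | i
          · exact Or.inl ⟨q', rfl⟩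
          · exact Or.inr ⟨i, rfl⟩
        · exact ⟨p', inl_mem_disjSum.1 hp, q', inl_mem_disjSum.1 hq,
            fun e => hpq (by rw [e]), hna⟩
        · exact absurd (inr_mem_disjSum.1 hq) (notMem_empty j)
      · exact absurd (inr_mem_disjSum.1 hp) (notMem_empty i)
    · subst h0
      -- the lifted set
      have hgA : gain G R ψ A {c} = 0 := by
        unfold gain
        apply sum_eq_zero
        intro v hv
        have h1 := gain_zero hg (hA hv)
        rw [h1]
        ring
      have hdis : Disjoint R A := by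
        rw [disjoint_left]
        intro v hv hv'
        exact (mem_sdiff.1 (hA hv')).2 hv
      have hcu : (R ∪ A).card = R.card + A.card := card_union_of_disjoint hdis
      have hAd : K ∣ A.card := by
        have h1 := (tgap6 T ih' hT' hR').2
        rw [hcc, Nat.add_sub_cancel] at h1
        by_contra h2
        have := h1 h2
        linarith
      have hA0 : A.Nonempty := by
        rw [nonempty_iff_ne_empty]
        rintro rfl
        obtain ⟨p, hp, q, hq, hpq, hna⟩ := hR'.non
        rcases p with p' | i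
        · exact absurd (inl_mem_disjSum.1 hp) (notMem_empty p')
        · rcases q with q' | j
          · exact absurd (inl_mem_disjSum.1 hq) (notMem_empty q')
          · have h1 := mem_singleton.1 (inr_mem_disjSum.1 hp)
            have h2 := mem_singleton.1 (inr_mem_disjSum.1 hq)
            exact hpq (by rw [h1, h2])
      have hU : PS G H (R ∪ A) := by
        apply union_ps hRps hA
        intro e
        apply hR'.ne
        rw [union_eq hRps.sub hA e]
      have hdf := df_ext (K := K) G hdis ψ {c}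
      have hY : Yy G K b (R ∪ A) ≤ 2 := by
        have h1 := T.mul (R.card - 1) A.card hRd hAd
        unfold Yy at hRY2 hle ⊢
        rw [hcc, Nat.add_sub_cancel] at hle
        have h2 : (R ∪ A).card - 1 = R.card - 1 + A.card := by omega
        rw [h2, h1, hdf, hgA, card_singleton]
        push_cast
        linarith
      have h1 := hmax (R ∪ A) (mem_filter.2 ⟨mem_powerset.2 hU.sub, hU, hY⟩)
      have h2 := card_pos.2 hA0
      omega
  have hc' := tight_clique6 T ih' hT' hno'
  have hq' := clq_of_card hT'.cr hc'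
  rw [hcc] at hc'
  have hQ : Clq G (H \ R) := by
    intro a ha d hd had
    exact hq' (Sum.inl a) (inl_mem_disjSum.2 ha) (Sum.inl d) (inl_mem_disjSum.2 hd)
      (fun e => had (Sum.inl_injective e))
  refine ⟨H \ R, ?_, by omega, hQ, ?_⟩
  · intro v hv
    have := mem_sdiff.1 hv
    refine mem_erase.2 ⟨?_, this.1⟩
    rintro rfl
    exact this.2 hzR
  · intro t ht
    have h1 : c ∈ hit G R ψ t := hq' (Sum.inl t) (inl_mem_disjSum.2 ht) (Sum.inr c)
      (inr_mem_disjSum.2 (mem_singleton_self c)) (by simp)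
    have h2 := gain_zero hg ht
    have h3 : (hit G R ψ t ∩ {c}).card = 1 := by
      rw [inter_singleton_of_mem h1, card_singleton]
    have h4 := dg_of_clq hQ ht
    have h5 : Disjoint R (H \ R) := disjoint_sdiff
    have h6 := Pool.Agent.O2.dg_union (G := G) h5 t
    rw [union_sdiff_of_subset hRps.sub] at h6
    omega

end Pool.Agent.OX25
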