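import Pool.Agent.Lib_helper25.OX.U0

/-!
# A clique with many low vertices outside a given clique

`H` is tight of residue 0 and all its small sets meet the clique `Z`: either `H` is a clique, or
there is a `K`-clique outside `Z` with at most one vertex whose degree is not `K`.
-/

set_option autoImplicit false
set_option linter.unusedSectionVars false
set_option linter.unusedVariables false

open scoped Classical
open Finset
open Pool.Agent.O2 (PC Cb CrOn pr ms dg nd addE)
open Pool.Agent.O3 (con hit Clq Non)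
open Pool.Agent.OW
open Pool.Agent.OW.S5

namespace Pool.Agent.OX25

variable {V : Type}

theorem lemmaT6' {K : ℕ} {b : ℕ → ℤ} (T : T6 K b) {G : SimpleGraph V} {H : Finset V}
    (ih : IH K b (H.card + 1)) (hH : Tgt K b G H) {z : V} (hz : z ∈ H)
    (hsm : ∀ R, PS G H R → Yy G K b R ≤ 2 → z ∈ R) :
    ∃ Q : Finset V, (∀ t ∈ Q, t ∈ H ∧ t ≠ z) ∧ Q.card = K ∧ Clq G Q ∧ ∀ t ∈ Q, dg G H t = K := by
  obtain ⟨Q, hQ, h⟩ := lemmaT6 T ih hH hz hsm
  exact ⟨Q, fun t ht => ⟨(mem_erase.1 (hQ ht)).2, (mem_erase.1 (hQ ht)).1⟩, h⟩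

theorem small_card {K : ℕ} {G : SimpleGraph V} {H R : Finset V} (hR : PS G H R)
    (hd : K ∣ R.card - 1) : K + 1 ≤ R.card := by
  obtain ⟨p, hp, q, hq, hpq, -⟩ := hR.non
  have h3 : ({p, q} : Finset V) ⊆ R := by
    intro a ha
    rcases mem_insert.1 ha with h4 | h4
    · rw [h4]; exact hp
    · rw [mem_singleton.1 h4]; exact hq
  have h4 := card_le_card h3
  rw [card_pair hpq] at h4
  have := Nat.le_of_dvd (by omega) hd
  omega

theorem noninj_of_card {K : ℕ} {R : Finset V} (h : K + 1 ≤ R.card) (ψ : V → Fin K) :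
    ∃ a ∈ R, ∃ c ∈ R, a ≠ c ∧ ψ a = ψ c := by
  have h1 : (univ : Finset (Fin K)).card < R.card := by
    rw [card_univ, Fintype.card_fin]; omega
  obtain ⟨a, ha, c, hc, hac, he⟩ :=
    exists_ne_map_eq_of_card_lt_of_maps_to h1 (f := ψ) (fun x _ => mem_coe.2 (mem_univ _))
  exact ⟨a, ha, c, hc, hac, he⟩

/-- the small sets of the contraction of a small set `R` that do not contain the new vertex are
small sets outside `R` -/
theorem small_con {K : ℕ} {b : ℕ → ℤ} {G : SimpleGraph V} {H R : Finset V} {ψ : V → Fin K}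
    {c : Fin K} (hRn : R.Nonempty) (hRH : R ⊆ H) {R' : Finset (V ⊕ Fin K)}
    (hR' : PS (con G R ψ) ((H \ R).disjSum {c}) R') (hY : Yy (con G R ψ) K b R' ≤ 2)
    (hc : Sum.inr c ∉ R') : ∃ A : Finset V, A ⊆ H \ R ∧ PS G H A ∧ Yy G K b A ≤ 2 := by
  obtain ⟨A, Z, rfl⟩ := eq_disjSum R'
  have hA : A ⊆ H \ R := fun v hv => inl_mem_disjSum.1 (hR'.sub (inl_mem_disjSum.2 hv))
  have hZ : Z ⊆ {c} := fun v hv => inr_mem_disjSum.1 (hR'.sub (inr_mem_disjSum.2 hv))
  have h0 : Z = ∅ := by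
    rcases subset_singleton_iff.1 hZ with h0 | h0
    · exact h0
    · subst h0
      exact absurd (inr_mem_disjSum.2 (mem_singleton_self c)) hc
  subst h0
  rw [Yy_con_empty] at hY
  obtain ⟨y, hy⟩ := hRn
  refine ⟨A, hA, ⟨hA.trans sdiff_subset, ?_, ?_⟩, hY⟩
  · rintro rfl
    exact (mem_sdiff.1 (hA (hRH hy))).2 hy
  · obtain ⟨p, hp, q, hq, hpq, hna⟩ := hR'.non
    rcases p with p' | i
    · rcases q with q' | j
      · exact ⟨p', inl_mem_disjSum.1 hp, q', inl_mem_disjSum.1 hq,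
          fun e => hpq (by rw [e]), hna⟩
      · exact absurd (inr_mem_disjSum.1 hq) (notMem_empty j)
    · exact absurd (inr_mem_disjSum.1 hp) (notMem_empty i)

/-- **O++** -/
theorem opp {K : ℕ} {b : ℕ → ℤ} (T : T6 K b) {G : SimpleGraph V} {H Z : Finset V}
    (ih : IH K b (H.card + 1)) (hH : Tgt K b G H) (hZH : Z ⊆ H) (hZ : Clq G Z)
    (hsm : ∀ R, PS G H R → Yy G K b R ≤ 2 → ∃ z ∈ Z, z ∈ R) :
    H.card = K + 1 ∨ ∃ Q ⊆ H \ Z, Q.card = K ∧ Clq G Q ∧
      (Q.filter fun t => ¬ dg G H t = K).card ≤ 1 := by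
  have hK4 := T.hK
  have hK4' : (4 : ℤ) ≤ K := by exact_mod_cast hK4
  have hK : 0 < K := by omega
  by_cases hno : ∀ R, PS G H R → 2 < Yy G K b R
  · exact Or.inl (tight_clique6 T ih hH hno)
  right
  by_cases hA : ∃ R, PS G H R ∧ Yy G K b R ≤ 2 ∧ Z ⊆ R
  · -- a small set which contains `Z`
    obtain ⟨R, hR, hRY, hZR⟩ := hA
    obtain ⟨ψ, hψ, hni⟩ := hR.noninj hK hH.cr
    obtain ⟨hRd, hRY2, c, hT', hg, hlt⟩ := teq6 T ih hH hR hRY hψ hni
    have ih' : IH K b (((H \ R).disjSum ({c} : Finset (Fin K))).card + 1) := by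
      intro V' G' S' h1 h2
      exact ih V' G' S' h1 (by omega)
    obtain ⟨Q', hQ', hQc, hQq, hQd⟩ := lemmaT6' T ih' hT'
      (inr_mem_disjSum.2 (mem_singleton_self c)) (by
        intro R' hR' hY'
        by_contra hc
        obtain ⟨A, hAR, hAP, hAY⟩ := small_con hR.nonempty hR.sub hR' hY' hc
        obtain ⟨z, hz, hzA⟩ := hsm A hAP hAY
        exact (mem_sdiff.1 (hAR hzA)).2 (hZR hz))
    obtain ⟨Q, Z', rfl⟩ := eq_disjSum Q'
    have hZ' : Z' = ∅ := by
      rw [eq_empty_iff_forall_notMem]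
      intro i hi
      have h1 := hQ' _ (inr_mem_disjSum.2 hi)
      have h2 := mem_singleton.1 (inr_mem_disjSum.1 h1.1)
      exact h1.2 (by rw [h2])
    subst hZ'
    have hQR : Q ⊆ H \ R := fun v hv =>
      inl_mem_disjSum.1 (hQ' _ (inl_mem_disjSum.2 hv)).1
    rw [card_disjSum, card_empty, add_zero] at hQc
    refine ⟨Q, ?_, hQc, ?_, ?_⟩
    · intro v hv
      have h1 := mem_sdiff.1 (hQR hv)
      exact mem_sdiff.2 ⟨h1.1, fun h2 => h1.2 (hZR h2)⟩
    · intro a ha d hd had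
      exact hQq (Sum.inl a) (inl_mem_disjSum.2 ha) (Sum.inl d) (inl_mem_disjSum.2 hd)
        (fun e => had (Sum.inl_injective e))
    · have h1 : (Q.filter fun t => ¬ dg G H t = K) = ∅ := by
        rw [filter_eq_empty_iff]
        intro t ht hne
        apply hne
        rw [← hQd (Sum.inl t) (inl_mem_disjSum.2 ht), Pool.Agent.O3.dg_con_inl,
          gain_zero hg (hQR ht), ← union_sdiff_of_subset hR.sub,
          Pool.Agent.O2.dg_union disjoint_sdiff, union_sdiff_of_subset hR.sub]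
        ring
      rw [h1, card_empty]
      omega
  · -- no small set contains `Z`
    push Not at hA hno
    obtain ⟨R₀, hR₀, hR₀Y⟩ := hno
    have hne : (H.powerset.filter fun R => PS G H R ∧ Yy G K b R ≤ 2).Nonempty :=
      ⟨R₀, mem_filter.2 ⟨mem_powerset.2 hR₀.sub, hR₀, hR₀Y⟩⟩
    obtain ⟨R, hR, hmin⟩ := exists_min_image _ card hne
    obtain ⟨-, hRps, hRY⟩ := mem_filter.1 hR
    have hmin' : ∀ R₁, PS G H R₁ → Yy G K b R₁ ≤ 2 → R.card ≤ R₁.card := fun R₁ h1 h2 =>
      hmin R₁ (mem_filter.2 ⟨mem_powerset.2 h1.sub, h1, h2⟩)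
    obtain ⟨ψ₀, hψ₀, hni₀⟩ := hRps.noninj hK hH.cr
    have hRd := (teq6 T ih hH hRps hRY hψ₀ hni₀).1
    have hRY2 := (teq6 T ih hH hRps hRY hψ₀ hni₀).2.1
    have hRc := small_card hRps hRd
    -- all colourings
    have key : ∀ ψ : V → Fin K, PC G R ψ → ∃ c : Fin K,
        CrOn (con G R ψ) ((H \ R).disjSum {c}) K ∧
        ∀ v ∈ H \ R, (∀ y ∈ R, G.Adj v y → ψ y = c) ∧
          ∀ y ∈ R, ∀ y' ∈ R, G.Adj v y → G.Adj v y' → y = y' := by
      intro ψ hψ
      obtain ⟨-, -, c, hT', hg, -⟩ := teq6 T ih hH hRps hRY hψ (noninj_of_card hRc ψ)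
      refine ⟨c, hT'.cr, fun v hv => ?_⟩
      have h1 := gain_zero_rainbow hg hv
      refine ⟨fun y hy hvy => mem_singleton.1 (h1.1 y hy hvy), fun y hy y' hy' hvy hvy' => ?_⟩
      apply h1.2 y hy y' hy' hvy hvy'
      rw [mem_singleton.1 (h1.1 y hy hvy), mem_singleton.1 (h1.1 y' hy' hvy')]
    obtain ⟨c₀, hcr₀, hbd₀⟩ := key ψ₀ hψ₀
    obtain ⟨a, haZ, haR⟩ := hsm R hRps hRY
    obtain ⟨z', hz'Z, hz'R⟩ : ∃ z' ∈ Z, z' ∉ R := by
      have := hA R hRps hRY
      rw [not_subset] at this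
      exact this
    have hz' : z' ∈ H \ R := mem_sdiff.2 ⟨hZH hz'Z, hz'R⟩
    have hadj : ∀ z ∈ Z, z ∈ R → G.Adj z' z := fun z hz hzR =>
      hZ z' hz'Z z hz (fun e => hz'R (e ▸ hzR))
    have hZR : ∀ z ∈ Z, z ∈ R → z = a := fun z hz hzR =>
      (hbd₀ z' hz').2 z hzR a haR (hadj z hz hzR) (hadj a haZ haR)
    -- a second vertex on the boundary
    obtain ⟨d, hdR, hda, v, hv, hvd⟩ : ∃ d ∈ R, d ≠ a ∧ ∃ v ∈ H \ R, G.Adj v d := by
      by_contra hcon
      push Not at hcon
      have h1 : insert a (H \ R) ⊆ H := insert_subset (hRps.sub haR) sdiff_subset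
      have h2 : insert a (H \ R) ≠ H := by
        intro e
        obtain ⟨p, hp, q, hq, hpq, -⟩ := hRps.non
        have h3 : ∀ y ∈ R, y = a := by
          intro y hy
          have h4 := hRps.sub hy
          rw [← e] at h4
          rcases mem_insert.1 h4 with h5 | h5
          · exact h5
          · exact absurd hy (mem_sdiff.1 h5).2
        exact hpq ((h3 p hp).trans (h3 q hq).symm)
      obtain ⟨χ, hχ⟩ := (Pool.Agent.O2.cb_fin hK).1 (hH.cr.sub h1 h2)
      apply hcr₀.1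
      apply Pool.Agent.O2.cb_of_pc (φ := Sum.elim χ fun _ => χ a)
      have hlr : ∀ w ∈ H \ R, ∀ i, i ∈ hit G R ψ₀ w → χ w ≠ χ a := by
        intro w hw i hi
        simp only [hit, mem_filter, mem_univ, true_and] at hi
        obtain ⟨y, hy, -, hwy⟩ := hi
        by_cases hya : y = a
        · rw [hya] at hwy
          exact hχ w (mem_insert_of_mem hw) a (mem_insert_self _ _) hwy
        · exact absurd hwy (hcon y hy hya w hw)
      rintro (p | i) hp (q | j) hq hpq
      · exact hχ p (mem_insert_of_mem (inl_mem_disjSum.1 hp)) q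
          (mem_insert_of_mem (inl_mem_disjSum.1 hq)) hpq
      · exact hlr p (inl_mem_disjSum.1 hp) j hpq
      · exact (hlr q (inl_mem_disjSum.1 hq) i hpq).symm
      · have h3 := mem_singleton.1 (inr_mem_disjSum.1 hp)
        have h4 := mem_singleton.1 (inr_mem_disjSum.1 hq)
        have hij : i ≠ j := hpq
        exact absurd (h3.trans h4.symm) hij
    -- `a` and `d` always have the same colour
    have hsame : ∀ ψ : V → Fin K, PC G R ψ → ψ a = ψ d := by
      intro ψ hψ
      obtain ⟨c, -, hbd⟩ := key ψ hψ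
      rw [(hbd z' hz').1 a haR (hadj a haZ haR), (hbd v hv).1 d hdR hvd]
    have hbdry : ∀ y ∈ R, (∃ w ∈ H \ R, G.Adj w y) → ψ₀ y = c₀ := fun y hy ⟨w, hw, hwy⟩ =>
      (hbd₀ w hw).1 y hy hwy
    have hnc : ¬ Cb (addE G {(a, d)}) R K := by
      intro hc
      obtain ⟨φ, hφ⟩ := (Pool.Agent.O2.cb_fin hK).1 hc
      exact hφ a haR d hdR (Or.inr ⟨hda.symm, Or.inl (mem_singleton_self _)⟩)
        (hsame φ fun p hp q hq hpq => hφ p hp q hq (Or.inl hpq))
    have hRH := card_le_card hRps.sub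
    obtain ⟨R₁, hR₁, hR₁cr, hR₁non, hR₁K, hR₁Y⟩ :=
      S5.addE_small ih (by omega) (hRps.cb hH.cr) hnc
    have hR₁Y' : Yy G K b R₁ ≤ 2 := by
      have h8 : (({(a, d)} : Finset (V × V)).filter fun p => p.1 ∈ R₁ ∧ p.2 ∈ R₁).card ≤ 1 :=
        (card_filter_le _ _).trans (by simp)
      have h9 : ((({(a, d)} : Finset (V × V)).filter fun p => p.1 ∈ R₁ ∧ p.2 ∈ R₁).card : ℤ) ≤
          1 := by exact_mod_cast h8
      linarith
    have hR₁ps : PS G H R₁ := ⟨hR₁.trans hRps.sub, fun e => hRps.ne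
      (Subset.antisymm hRps.sub (e ▸ hR₁)), hR₁non⟩
    have hR₁e : R₁ = R := eq_of_subset_of_card_le hR₁ (hmin' R₁ hR₁ps hR₁Y')
    rw [hR₁e] at hR₁cr
    -- `R` is tight with the new edge
    have hpr := S5.pr_addE G {(a, d)} R
    have h8 : (({(a, d)} : Finset (V × V)).filter fun p => p.1 ∈ R ∧ p.2 ∈ R).card ≤ 1 :=
      (card_filter_le _ _).trans (by simp)
    have hprz : (pr (addE G {(a, d)}) R R : ℤ) ≤ pr G R R + 2 := by
      have : pr (addE G {(a, d)}) R R ≤ pr G R R + 2 := by omega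
      exact_mod_cast this
    have hTR : Tgt K b (addE G {(a, d)}) R := by
      refine ⟨hR₁cr, hRd, ?_⟩
      have h1 := ih _ _ _ hR₁cr (by omega)
      unfold Yy at hRY2 ⊢
      unfold df at h1 hRY2 ⊢
      linarith
    have ihR : IH K b (R.card + 1) := by
      intro V' G' S' h1 h2
      exact ih V' G' S' h1 (by omega)
    have hadj' : ∀ p ∈ R, ∀ q ∈ R, p ≠ a → q ≠ a → ((addE G {(a, d)}).Adj p q ↔ G.Adj p q) := by
      intro p hp q hq hpa hqa
      constructor
      · rintro (h1 | ⟨-, h1 | h1⟩)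
        · exact h1
        · exact absurd (Prod.mk.inj (mem_singleton.1 h1)).1 hpa
        · exact absurd (Prod.mk.inj (mem_singleton.1 h1)).1 hqa
      · exact fun h1 => Or.inl h1
    obtain ⟨Q, hQ, hQc, hQq, hQd⟩ := lemmaT6 T ihR hTR haR (by
      intro R₂ hR₂ hY₂
      by_contra haR₂
      have h1 := S5.pr_addE G {(a, d)} R₂
      have h2 : (({(a, d)} : Finset (V × V)).filter fun p => p.1 ∈ R₂ ∧ p.2 ∈ R₂) = ∅ := by
        rw [filter_eq_empty_iff]
        intro p hp h3
        rw [mem_singleton.1 hp] at h3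
        exact haR₂ h3.1
      rw [h2, card_empty, mul_zero, add_zero] at h1
      have h3 : (pr (addE G {(a, d)}) R₂ R₂ : ℤ) ≤ pr G R₂ R₂ := by exact_mod_cast h1
      have h4 : Yy G K b R₂ ≤ 2 := by
        unfold Yy at hY₂ ⊢
        unfold df at hY₂ ⊢
        linarith
      have h5 : PS G H R₂ := by
        refine ⟨hR₂.sub.trans hRps.sub, fun e => hRps.ne
          (Subset.antisymm hRps.sub (e ▸ hR₂.sub)), ?_⟩
        obtain ⟨p, hp, q, hq, hpq, hna⟩ := hR₂.non
        exact ⟨p, hp, q, hq, hpq, fun h6 => hna (Or.inl h6)⟩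
      have h6 := hmin' R₂ h5 h4
      exact hR₂.ne (eq_of_subset_of_card_le hR₂.sub h6))
    have hQR : Q ⊆ R := fun t ht => (mem_erase.1 (hQ ht)).2
    have hQa : ∀ t ∈ Q, t ≠ a := fun t ht => (mem_erase.1 (hQ ht)).1
    have hQG : Clq G Q := fun p hp q hq hpq =>
      (hadj' p (hQR hp) q (hQR hq) (hQa p hp) (hQa q hq)).1 (hQq p hp q hq hpq)
    refine ⟨Q, ?_, hQc, hQG, ?_⟩
    · intro t ht
      refine mem_sdiff.2 ⟨hRps.sub (hQR ht), fun htZ => hQa t ht (hZR t htZ (hQR ht))⟩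
    · rw [card_le_one]
      have hcol : ∀ t ∈ Q.filter (fun t => ¬ dg G H t = K), ψ₀ t = c₀ := by
        intro t ht
        obtain ⟨htQ, htd⟩ := mem_filter.1 ht
        have htR := hQR htQ
        apply hbdry t htR
        by_contra hcon
        push Not at hcon
        apply htd
        have htd' : t ≠ d := by
          rintro rfl
          exact hcon v hv hvd
        have h1 : dg G H t = dg G R t + dg G (H \ R) t := by
          rw [← Pool.Agent.O2.dg_union disjoint_sdiff, union_sdiff_of_subset hRps.sub]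
        have h2 : dg G (H \ R) t = 0 := by
          unfold dg
          rw [card_eq_zero, filter_eq_empty_iff]
          exact fun y hy hty => hcon y hy hty.symm
        have h3 : dg G R t = dg (addE G {(a, d)}) R t := by
          unfold dg
          congr 1
          apply filter_congr
          intro y hy
          constructor
          · exact fun h4 => Or.inl h4
          · rintro (h4 | ⟨-, h4 | h4⟩)
            · exact h4
            · exact absurd (Prod.mk.inj (mem_singleton.1 h4)).1 (hQa t htQ)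
            · exact absurd (Prod.mk.inj (mem_singleton.1 h4)).2 htd'
        rw [h1, h2, h3, hQd t htQ]
        rfl
      intro t ht t' ht'
      by_contra hne
      exact hψ₀ t (hQR (mem_filter.1 ht).1) t' (hQR (mem_filter.1 ht').1)
        (hQG t (mem_filter.1 ht).1 t' (mem_filter.1 ht').1 hne)
        ((hcol t ht).trans (hcol t' ht').symm)

end Pool.Agent.OX25
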