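import Pool.Agent.Lib_helper25.OX.U1

/-!
# Flex reduction

A tight piece of residue 0 of a step in a critical set whose proper subsets are large is a clique
on `K + 1` vertices, or there is a `K`-clique among the new vertices with many vertices of
degree `K`.
-/

set_option autoImplicit false
set_option linter.unusedSectionVars false
set_option linter.unusedVariables false

open scoped Classical
open Finset
open Pool.Agent.O2 (PC Cb CrOn pr ms dg nd addE)
open Pool.Agent.O3 (con hit Clq Non)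
open Pool.Agent.OW
open Pool.Agent.OW.S5

namespace Pool.Agent.OX25

variable {V : Type}

/-- the general form, any loss, also for steps which do not end with `S` -/
theorem flex_gen {K : ℕ} {b : ℕ → ℤ} (T : T6 K b) {G : SimpleGraph V} {S R A : Finset V}
    {ψ : V → Fin K} {Z : Finset (Fin K)} (hI : IH K b S.card)
    (hY : ∀ X ⊆ S, X ≠ S → K + 1 ≤ X.card → 3 ≤ Yy G K b X)
    (h : Step G S R ψ A Z) (hRn : R.Nonempty) (hlt : (A.disjSum Z).card < S.card)
    (hres : K ∣ (A.disjSum Z).card - 1) (hQ : Yy (con G R ψ) K b (A.disjSum Z) = 0) :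
    (A.disjSum Z).card = K + 1 ∨ ∃ Q ⊆ A, Q.card = K ∧ Clq G Q ∧
      (Q.filter fun t => ¬ dg (con G R ψ) (A.disjSum Z) (Sum.inl t) = K).card ≤ 1 := by
  have hK4 := T.hK
  have hK4' : (4 : ℤ) ≤ K := by exact_mod_cast hK4
  have hT : Tgt K b (con G R ψ) (A.disjSum Z) := ⟨h.cr, hres, hQ⟩
  have ih : IH K b ((A.disjSum Z).card + 1) := by
    intro V' G' S' h1 h2
    exact hI V' G' S' h1 (by omega)
  set Z' : Finset (V ⊕ Fin K) := (∅ : Finset V).disjSum Z with hZ'
  have hZ'H : Z' ⊆ A.disjSum Z := by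
    rintro (v | i) hv
    · exact absurd (inl_mem_disjSum.1 hv) (notMem_empty v)
    · exact inr_mem_disjSum.2 (inr_mem_disjSum.1 hv)
  have hZ'q : Clq (con G R ψ) Z' := by
    rintro (v | i) hv (w | j) hw hne
    · exact absurd (inl_mem_disjSum.1 hv) (notMem_empty v)
    · exact absurd (inl_mem_disjSum.1 hv) (notMem_empty v)
    · exact absurd (inl_mem_disjSum.1 hw) (notMem_empty w)
    · exact fun e => hne (by rw [e])
  have hAS : A ⊆ S := h.subA
  obtain ⟨y, hy⟩ := hRn
  have hyA : y ∉ A := fun hyA => (mem_sdiff.1 (h.hA hyA)).2 hy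
  have hsm : ∀ R', PS (con G R ψ) (A.disjSum Z) R' → Yy (con G R ψ) K b R' ≤ 2 →
      ∃ z ∈ Z', z ∈ R' := by
    intro R' hR' hYR'
    by_contra hcon
    push Not at hcon
    obtain ⟨A', Z₁, rfl⟩ := eq_disjSum R'
    have hZ₁ : Z₁ = ∅ := by
      rw [eq_empty_iff_forall_notMem]
      intro i hi
      have h1 := inr_mem_disjSum.1 (hR'.sub (inr_mem_disjSum.2 hi))
      exact hcon (Sum.inr i) (inr_mem_disjSum.2 h1) (inr_mem_disjSum.2 hi)
    subst hZ₁
    have hA' : A' ⊆ A := fun v hv => inl_mem_disjSum.1 (hR'.sub (inl_mem_disjSum.2 hv))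
    have hd : K ∣ (A'.disjSum (∅ : Finset (Fin K))).card - 1 := by
      by_contra hd
      have h1 := (tgap6 T ih hT hR').2 hd
      linarith
    have hc := small_card hR' hd
    rw [card_disjSum, card_empty, add_zero] at hc
    rw [Yy_con_empty] at hYR'
    have h1 := hY A' (hA'.trans hAS) (fun e => by
      have h2 := h.sub hy
      rw [← e] at h2
      exact hyA (hA' h2)) hc
    linarith
  rcases opp T ih hT hZ'H hZ'q hsm with h1 | ⟨Q', hQ', hQc, hQq, hQd⟩
  · exact Or.inl h1
  right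
  obtain ⟨Q, Z₁, rfl⟩ := eq_disjSum Q'
  have hZ₁ : Z₁ = ∅ := by
    rw [eq_empty_iff_forall_notMem]
    intro i hi
    have h1 : Sum.inr i ∈ A.disjSum Z ∧ Sum.inr i ∉ Z' := by
      have := hQ' (inr_mem_disjSum.2 hi)
      simpa only [mem_sdiff] using this
    exact h1.2 (inr_mem_disjSum.2 (inr_mem_disjSum.1 h1.1))
  subst hZ₁
  rw [card_disjSum, card_empty, add_zero] at hQc
  refine ⟨Q, ?_, hQc, ?_, ?_⟩
  · intro v hv
    have h1 : Sum.inl v ∈ A.disjSum Z ∧ Sum.inl v ∉ Z' := by
      have := hQ' (inl_mem_disjSum.2 hv)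
      simpa only [mem_sdiff] using this
    exact inl_mem_disjSum.1 h1.1
  · intro a ha d hd had
    exact hQq (Sum.inl a) (inl_mem_disjSum.2 ha) (Sum.inl d) (inl_mem_disjSum.2 hd)
      (fun e => had (Sum.inl_injective e))
  · refine le_trans ?_ hQd
    refine card_le_card_of_injOn (fun t => Sum.inl t) ?_ ?_
    · intro t ht
      have ht' := mem_filter.1 (mem_coe.1 ht)
      exact mem_coe.2 (mem_filter.2 ⟨inl_mem_disjSum.2 ht'.1, ht'.2⟩)
    · intro t _ t' _ e
      exact Sum.inl_injective e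

/-- without loss, in a set in which every `K`-clique has two vertices that are not low -/
theorem flex_red {K : ℕ} {b : ℕ → ℤ} (T : T6 K b) {G : SimpleGraph V} {S R A : Finset V}
    {ψ : V → Fin K} {Z : Finset (Fin K)} (hI : IH K b S.card)
    (hY : ∀ X ⊆ S, X ≠ S → K + 1 ≤ X.card → 3 ≤ Yy G K b X)
    (hE0 : ∀ X ⊆ S, Clq G X → X.card = K → 2 ≤ (X.filter fun t => ¬ dg G S t = K).card)
    (h : Step G S R ψ A Z) (hRn : R.Nonempty) (hlt : (A.disjSum Z).card < S.card)
    (hU : R ∪ A = S) (hg : gain G R ψ A Z = 0)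
    (hres : K ∣ (A.disjSum Z).card - 1) (hQ : Yy (con G R ψ) K b (A.disjSum Z) = 0) :
    A.card + Z.card = K + 1 ∧ Clq G A ∧ ∀ v ∈ A, dg G S v = K := by
  have hdeg := (h.gain_zero_final hg hU).1
  have hc : (A.disjSum Z).card = K + 1 := by
    rcases flex_gen T hI hY h hRn hlt hres hQ with h1 | ⟨Q, h1, h2, h3, h4⟩
    · exact h1
    · exfalso
      have h5 := hE0 Q (h1.trans h.subA) h3 h2
      have h6 : (Q.filter fun t => ¬ dg G S t = K) =
          Q.filter fun t => ¬ dg (con G R ψ) (A.disjSum Z) (Sum.inl t) = K := by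
        apply filter_congr
        intro t ht
        rw [hdeg t (h1 ht)]
      rw [h6] at h5
      omega
  have hq := clq_of_card h.cr hc
  refine ⟨by rw [← card_disjSum]; exact hc, ?_, ?_⟩
  · intro a ha d hd had
    exact hq (Sum.inl a) (inl_mem_disjSum.2 ha) (Sum.inl d) (inl_mem_disjSum.2 hd)
      (fun e => had (Sum.inl_injective e))
  · intro v hv
    rw [← hdeg v hv]
    have := dg_of_clq hq (inl_mem_disjSum.2 hv)
    omega

end Pool.Agent.OX25
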